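import Pool.Agent.Q192.FG.Defs

/-! MP_e54d61_gt, Q2: the answer is no. -/

set_option autoImplicit false

open Pool.Agent.Q192.FG

namespace Pool.Agent.Results.MP_e54d61_gt.ReversibleZeroFlowLength

universe u

/-- Let `f` be a homeomorphism of `X` (a closed surface, or any other space) such that `f ^ p` is
conjugate to `f ^ q` for some integers `p ≠ q`, for instance `f` conjugate to `f⁻¹`, the
conjugation being in the group `flowGroup X` generated by the time-one maps of flows. Then all
powers of `f` have bounded flow length; in particular the stable flow length of `f` is `0`. -/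
theorem result {X : Type u} [TopologicalSpace X] (f h : X ≃ₜ X)
    (hf : f ∈ flowGroup X) (hh : h ∈ flowGroup X) (p q : ℤ) (hpq : p ≠ q)
    (hc : h * f ^ p * h⁻¹ = f ^ q) :
    (∀ n : ℕ, flowLength (f ^ n) ≤ (q - p).natAbs * flowLength f + 2 * flowLength h) ∧
      HasStableFlowLength f 0 := by
  refine ⟨fun n => pow_bound hpq hf hh hc n, ?_⟩
  unfold HasStableFlowLength
  obtain ⟨C, hC⟩ : ∃ C : ℝ, C = (((q - p).natAbs * flowLength f + 2 * flowLength h : ℕ) : ℝ) :=
    ⟨_, rfl⟩
  have h1 : Filter.Tendsto (fun n : ℕ => C / (n : ℝ)) Filter.atTop (nhds 0) :=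
    tendsto_const_div_atTop_nhds_zero_nat C
  refine squeeze_zero (fun n => by positivity) (fun n => ?_) h1
  have h2 : (flowLength (f ^ n) : ℝ) ≤ C := by
    rw [hC]
    exact Nat.cast_le.2 (pow_bound hpq hf hh hc n)
  gcongr

end Pool.Agent.Results.MP_e54d61_gt.ReversibleZeroFlowLength
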